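import Pool.Agent.Helper38.ELP.Spec

set_option autoImplicit false

/-! Module D4: the bends on the diagonal. -/

namespace Pool.Agent.Helper78.ELP.D4

open Pool.Agent.Helper38.ELP

lemma ty_LT {N I : ℕ} (h1 : 1 ≤ I) (h3 : I ≤ N) : ty N I I = .LT := by
  unfold ty
  rw [if_neg (by omega), if_neg (by omega), if_neg (by omega), if_neg (by omega),
    if_neg (by omega), if_neg (by omega), if_pos rfl]

lemma rd_LT {N I : ℕ} (h1 : 1 ≤ I) (h3 : I ≤ N) (m : Ty → ℕ) (dx dy : ℕ) (hx : dx < 10)
    (hy : dy < 10) : rd m N (10 * I + dx) (10 * I + dy) = (m .LT).testBit (10 * dy + dx) := by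
  unfold rd
  have e1 : (10 * I + dx) / 10 = I := by omega
  have e2 : (10 * I + dy) / 10 = I := by omega
  have e3 : (10 * I + dx) % 10 = dx := by omega
  have e4 : (10 * I + dy) % 10 = dy := by omega
  rw [e1, e2, e3, e4, ty_LT h1 h3]

section

variable {N : ℕ} {uh uv : ℕ → ℕ → Bool} (hG : Good N uh uv) {I : ℕ} (h1 : 1 ≤ I) (h2 : I ≤ N)

include hG h1 h2

lemma noH (dx dy : ℕ) (hx : dx < 10) (hy : dy < 10)
    (h : (alH .LT).testBit (10 * dy + dx) = false) : uh (10 * I + dx) (10 * I + dy) = false := by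
  by_contra hc
  have := hG.alwH _ _ (by simpa using hc)
  rw [rd_LT h1 h2 alH dx dy hx hy, h] at this
  exact Bool.noConfusion this

lemma noV (dx dy : ℕ) (hx : dx < 10) (hy : dy < 10)
    (h : (alV .LT).testBit (10 * dy + dx) = false) : uv (10 * I + dx) (10 * I + dy) = false := by
  by_contra hc
  have := hG.alwV _ _ (by simpa using hc)
  rw [rd_LT h1 h2 alV dx dy hx hy, h] at this
  exact Bool.noConfusion this

lemma yesH (dx dy : ℕ) (hx : dx < 10) (hy : dy < 10)
    (h : (foH .LT).testBit (10 * dy + dx) = true) : uh (10 * I + dx) (10 * I + dy) = true :=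
  hG.frcH _ _ (by rw [rd_LT h1 h2 foH dx dy hx hy, h])

lemma yesV (dx dy : ℕ) (hx : dx < 10) (hy : dy < 10)
    (h : (foV .LT).testBit (10 * dy + dx) = true) : uv (10 * I + dx) (10 * I + dy) = true :=
  hG.frcV _ _ (by rw [rd_LT h1 h2 foV dx dy hx hy, h])

/-- degree two at the local vertex `(dx + 1, dy + 1)` -/
lemma degA (dx dy : ℕ) (hx : dx + 1 < 10) (hy : dy + 1 < 10)
    (h : (presM .LT).testBit (10 * (dy + 1) + (dx + 1)) = true) :
    (uh (10 * I + (dx + 1)) (10 * I + (dy + 1))).toNat +
      (uv (10 * I + (dx + 1)) (10 * I + (dy + 1))).toNat +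
      (uh (10 * I + dx) (10 * I + (dy + 1))).toNat +
      (uv (10 * I + (dx + 1)) (10 * I + dy)).toNat = 2 := by
  have h5 := hG.deg (10 * I + (dx + 1)) (10 * I + (dy + 1)) (by
    unfold pres
    rw [rd_LT h1 h2 presM _ _ hx hy, h])
  unfold degU at h5
  rw [if_neg (by omega), if_neg (by omega)] at h5
  have e1 : 10 * I + (dx + 1) - 1 = 10 * I + dx := by omega
  have e2 : 10 * I + (dy + 1) - 1 = 10 * I + dy := by omega
  rw [e1, e2] at h5
  exact h5

/-- degree two at the local vertex `(0, dy + 1)` -/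
lemma degB (dy : ℕ) (hy : dy + 1 < 10)
    (h : (presM .LT).testBit (10 * (dy + 1) + 0) = true) :
    (uh (10 * I + 0) (10 * I + (dy + 1))).toNat +
      (uv (10 * I + 0) (10 * I + (dy + 1))).toNat +
      (uh (10 * I - 1) (10 * I + (dy + 1))).toNat +
      (uv (10 * I + 0) (10 * I + dy)).toNat = 2 := by
  have h5 := hG.deg (10 * I + 0) (10 * I + (dy + 1)) (by
    unfold pres
    rw [rd_LT h1 h2 presM 0 _ (by norm_num) hy, h])
  unfold degU at h5
  rw [if_neg (by omega), if_neg (by omega)] at h5
  have e2 : 10 * I + (dy + 1) - 1 = 10 * I + dy := by omega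
  rw [e2] at h5
  exact h5

end

end Pool.Agent.Helper78.ELP.D4

namespace Pool.Agent.Helper78.ELP

open Pool.Agent.Helper38.ELP

theorem d4 : specD4 := by
  intro N uh uv hG I h1 h2 hL
  -- the forced and the missing edges
  have f01 := D4.yesV hG h1 h2 0 1 (by norm_num) (by norm_num) (by decide +kernel)
  have f11 := D4.yesH hG h1 h2 1 1 (by norm_num) (by norm_num) (by decide +kernel)
  have f21 := D4.yesV hG h1 h2 2 1 (by norm_num) (by norm_num) (by decide +kernel)
  have n00 := D4.noV hG h1 h2 0 0 (by norm_num) (by norm_num) (by decide +kernel)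
  have n02 := D4.noV hG h1 h2 0 2 (by norm_num) (by norm_num) (by decide +kernel)
  have n10 := D4.noV hG h1 h2 1 0 (by norm_num) (by norm_num) (by decide +kernel)
  have m22 := D4.noH hG h1 h2 2 2 (by norm_num) (by norm_num) (by decide +kernel)
  have m23 := D4.noH hG h1 h2 2 3 (by norm_num) (by norm_num) (by decide +kernel)
  have m24 := D4.noH hG h1 h2 2 4 (by norm_num) (by norm_num) (by decide +kernel)
  have m25 := D4.noH hG h1 h2 2 5 (by norm_num) (by norm_num) (by decide +kernel)
  have m26 := D4.noH hG h1 h2 2 6 (by norm_num) (by norm_num) (by decide +kernel)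
  have m27 := D4.noH hG h1 h2 2 7 (by norm_num) (by norm_num) (by decide +kernel)
  have m28 := D4.noH hG h1 h2 2 8 (by norm_num) (by norm_num) (by decide +kernel)
  have m29 := D4.noH hG h1 h2 2 9 (by norm_num) (by norm_num) (by decide +kernel)
  have g13 := D4.yesH hG h1 h2 1 3 (by norm_num) (by norm_num) (by decide +kernel)
  have g14 := D4.yesH hG h1 h2 1 4 (by norm_num) (by norm_num) (by decide +kernel)
  have g15 := D4.yesH hG h1 h2 1 5 (by norm_num) (by norm_num) (by decide +kernel)
  have g16 := D4.yesH hG h1 h2 1 6 (by norm_num) (by norm_num) (by decide +kernel)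
  have g17 := D4.yesH hG h1 h2 1 7 (by norm_num) (by norm_num) (by decide +kernel)
  have g18 := D4.yesH hG h1 h2 1 8 (by norm_num) (by norm_num) (by decide +kernel)
  have g19 := D4.yesH hG h1 h2 1 9 (by norm_num) (by norm_num) (by decide +kernel)
  -- the degrees
  have d01 := D4.degB hG h1 h2 0 (by norm_num) (by decide +kernel)
  have d02 := D4.degB hG h1 h2 1 (by norm_num) (by decide +kernel)
  have d11 := D4.degA hG h1 h2 0 0 (by norm_num) (by norm_num) (by decide +kernel)
  have d12 := D4.degA hG h1 h2 0 1 (by norm_num) (by norm_num) (by decide +kernel)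
  have d22 := D4.degA hG h1 h2 1 1 (by norm_num) (by norm_num) (by decide +kernel)
  have d23 := D4.degA hG h1 h2 1 2 (by norm_num) (by norm_num) (by decide +kernel)
  have d24 := D4.degA hG h1 h2 1 3 (by norm_num) (by norm_num) (by decide +kernel)
  have d25 := D4.degA hG h1 h2 1 4 (by norm_num) (by norm_num) (by decide +kernel)
  have d26 := D4.degA hG h1 h2 1 5 (by norm_num) (by norm_num) (by decide +kernel)
  have d27 := D4.degA hG h1 h2 1 6 (by norm_num) (by norm_num) (by decide +kernel)
  have d28 := D4.degA hG h1 h2 1 7 (by norm_num) (by norm_num) (by decide +kernel)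
  have d29 := D4.degA hG h1 h2 1 8 (by norm_num) (by norm_num) (by decide +kernel)
  simp only [Nat.reduceAdd] at d01 d02 d11 d12 d22 d23 d24 d25 d26 d27 d28 d29
  simp only [f01, n00, Bool.toNat_true, Bool.toNat_false] at d01
  simp only [f01, n02, Bool.toNat_true, Bool.toNat_false] at d02
  simp only [f11, n10, Bool.toNat_true, Bool.toNat_false] at d11
  simp only [f21, m22, Bool.toNat_true, Bool.toNat_false] at d22
  simp only [m23, g13, Bool.toNat_true, Bool.toNat_false] at d23
  simp only [m24, g14, Bool.toNat_true, Bool.toNat_false] at d24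
  simp only [m25, g15, Bool.toNat_true, Bool.toNat_false] at d25
  simp only [m26, g16, Bool.toNat_true, Bool.toNat_false] at d26
  simp only [m27, g17, Bool.toNat_true, Bool.toNat_false] at d27
  simp only [m28, g18, Bool.toNat_true, Bool.toNat_false] at d28
  simp only [m29, g19, Bool.toNat_true, Bool.toNat_false] at d29
  have hL' : (uh (10 * I - 1) (10 * I + 1)).toNat + (uh (10 * I - 1) (10 * I + 2)).toNat = 1 := by
    rw [hL]
    cases uh (10 * I - 1) (10 * I + 2) <;> rfl
  have hfin : (uv (10 * I + 2) (10 * I + 9)).toNat = (uh (10 * I - 1) (10 * I + 2)).toNat := by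
    have hb : ∀ b : Bool, b.toNat ≤ 1 := Bool.toNat_le
    have b1 := hb (uh (10 * I + 1) (10 * I + 2))
    have b2 := hb (uv (10 * I + 1) (10 * I + 2))
    have b3 := hb (uh (10 * I - 1) (10 * I + 2))
    omega
  generalize uv (10 * I + 2) (10 * I + 9) = p at hfin ⊢
  generalize uh (10 * I - 1) (10 * I + 2) = q at hfin ⊢
  revert hfin
  cases p <;> cases q <;> simp

end Pool.Agent.Helper78.ELP
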