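import Pool.Agent.Helper38.ELP.Spec

set_option autoImplicit false

/-! Module D6: reading products (from D3, D4, D5). -/

namespace Pool.Agent.Helper78.ELP

open Pool.Agent.Helper38.ELP

/-- types of the cells `(I, J)` with `1 ≤ I < J ≤ N` -/
lemma ty_X {N I J : ℕ} (h1 : 1 ≤ I) (h2 : I < J) (h3 : J ≤ N) : ty N I J = .X := by
  unfold ty
  rw [if_neg (by omega), if_neg (by omega), if_neg (by omega), if_neg (by omega),
    if_neg (by omega), if_pos h2]

lemma ty_LT {N I : ℕ} (h1 : 1 ≤ I) (h3 : I ≤ N) : ty N I I = .LT := by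
  unfold ty
  rw [if_neg (by omega), if_neg (by omega), if_neg (by omega), if_neg (by omega),
    if_neg (by omega), if_neg (by omega), if_pos rfl]

/-- right sides in row `J` -/
lemma hasR_row {N I J : ℕ} (h2 : I < J) (h3 : J ≤ N) : hasR (ty N I J) = true := by
  rcases Nat.eq_zero_or_pos I with h0 | h0
  · subst h0
    unfold ty
    rw [if_neg (by omega), if_pos rfl]
    split_ifs <;> rfl
  · rw [ty_X h0 h2 h3]; rfl

/-- top sides in column `I` -/
lemma hasT_col {N I J : ℕ} (h1 : 1 ≤ I) (h2 : I ≤ J) (h3 : J ≤ N) : hasT (ty N I J) = true := by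
  rcases Nat.lt_or_ge I J with h | h
  · rw [ty_X h1 h h3]; rfl
  · have : J = I := le_antisymm h h2
    subst this
    rw [ty_LT h1 h3]; rfl

section

variable {N : ℕ} {uh uv : ℕ → ℕ → Bool} (h3 : specD3) (h4 : specD4) (h5 : specD5)
  (hG : Good N uh uv)

include h3 hG in
lemma right_side {I J : ℕ} (hIJ : I < J) (hJ : J ≤ N) :
    uh (10 * I + 9) (10 * J + 1) = !uh (10 * I + 9) (10 * J + 2) ∧
    uh (10 * I + 5) (10 * J + 1) = uh (10 * I + 9) (10 * J + 1) ∧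
    uh (10 * I + 5) (10 * J + 2) = uh (10 * I + 9) (10 * J + 2) :=
  (h3 N uh uv hG I J).2 (hasR_row hIJ hJ)

include h3 hG in
lemma top_side {I J : ℕ} (hI : 1 ≤ I) (hIJ : I ≤ J) (hJ : J ≤ N) :
    uv (10 * I + 1) (10 * J + 9) = !uv (10 * I + 2) (10 * J + 9) ∧
    uv (10 * I + 1) (10 * J + 5) = uv (10 * I + 1) (10 * J + 9) ∧
    uv (10 * I + 2) (10 * J + 5) = uv (10 * I + 2) (10 * J + 9) :=
  (h3 N uh uv hG I J).1 (hasT_col hI hIJ hJ)

include h3 h5 hG in
lemma cross {I J : ℕ} (hI : 1 ≤ I) (hIJ : I < J) (hJ : J ≤ N) :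
    uh (10 * I + 9) (10 * J + 2) = uh (10 * (I - 1) + 9) (10 * J + 2) ∧
    uv (10 * I + 2) (10 * J + 9) = uv (10 * I + 2) (10 * (J - 1) + 9) ∧
    uv (10 * I) (10 * J + 1) =
      (uv (10 * I + 2) (10 * (J - 1) + 9) && uh (10 * (I - 1) + 9) (10 * J + 2)) := by
  have e1 : 10 * I - 1 = 10 * (I - 1) + 9 := by omega
  have e2 : 10 * J - 1 = 10 * (J - 1) + 9 := by omega
  obtain ⟨a1, -, -⟩ := right_side h3 hG (I := I - 1) (J := J) (by omega) hJ
  obtain ⟨b1, -, -⟩ := top_side h3 hG (I := I) (J := J - 1) hI (by omega) (by omega)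
  obtain ⟨c1, c2, c3⟩ := right_side h3 hG hIJ hJ
  obtain ⟨d1, d2, d3⟩ := top_side h3 hG hI hIJ.le hJ
  obtain ⟨r1, r2, r3⟩ := h5 N uh uv hG I J hI hIJ hJ (by rw [e1]; exact a1)
    (by rw [e2]; exact b1) (by rw [c2, c3]; exact c1) (by rw [d2, d3]; exact d1)
  rw [e1] at r1 r3
  rw [e2] at r2 r3
  exact ⟨c3.symm.trans r1, d3.symm.trans r2, r3⟩

include h3 h5 hG in
lemma row {I J : ℕ} (hIJ : I < J) (hJ : J ≤ N) :
    uh (10 * I + 9) (10 * J + 2) = uh 9 (10 * J + 2) := by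
  induction I with
  | zero => rfl
  | succ I ih =>
    rw [(cross h3 h5 hG (Nat.succ_le_succ (Nat.zero_le I)) hIJ hJ).1]
    exact ih (by omega)

include h3 h5 hG in
lemma col {I J : ℕ} (hI : 1 ≤ I) (hIJ : I ≤ J) (hJ : J ≤ N) :
    uv (10 * I + 2) (10 * J + 9) = uv (10 * I + 2) (10 * I + 9) := by
  induction J, hIJ using Nat.le_induction with
  | base => rfl
  | succ J hIJ ih =>
    rw [(cross h3 h5 hG hI (by omega : I < J + 1) hJ).2.1]
    exact ih (by omega)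

include h3 h4 h5 hG in
lemma diag {I : ℕ} (hI : 1 ≤ I) (hN : I ≤ N) :
    uv (10 * I + 2) (10 * I + 9) = uh 9 (10 * I + 2) := by
  have e1 : 10 * I - 1 = 10 * (I - 1) + 9 := by omega
  obtain ⟨a1, -, -⟩ := right_side h3 hG (I := I - 1) (J := I) (by omega) hN
  rw [h4 N uh uv hG I hI hN (by rw [e1]; exact a1), e1]
  exact row h3 h5 hG (by omega) hN

end

theorem d6 (h3 : specD3) (h4 : specD4) (h5 : specD5) : specD6 := by
  intro M uh uv hG k l hk hkl hl
  have hI : 1 ≤ 2 * k + 1 := by omega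
  have hIJ : 2 * k + 1 < 2 * l + 1 := by omega
  have hJ : 2 * l + 1 ≤ 2 * M + 2 := by omega
  rw [(cross h3 h5 hG hI hIJ hJ).2.2,
    col h3 h5 hG hI (by omega : 2 * k + 1 ≤ 2 * l + 1 - 1) (by omega),
    diag h3 h4 h5 hG hI (by omega), row h3 h5 hG (by omega) hJ]

end Pool.Agent.Helper78.ELP
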